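import Pool.Agent.Work.MP_f7e2e5_gt.Sy.Main

open MeasureTheory
open scoped NNReal

namespace Pool.Agent.Results.MP_f7e2e5_gt.InvariantMeasures

open Pool.Agent.Work.MP_f7e2e5_gt Pool.Agent.Work.MP_f7e2e5_gt.Sy

/-- The logarithmic Minkowski problem for `p`-capacity, `1 < p < n`, for measures invariant under
a group `G` of linear isometries without nonzero fixed vector: it has a `G`-invariant solution for
bounded densities when `n ≥ 3`, and more generally under a subspace concentration inequality on
the invariant subspaces of dimension `> p` and two decay conditions near the invariant subspaces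
of dimension `≤ p`. -/
theorem result {n : ℕ} {p : ℝ} (hp : 1 < p) (hpn : p < n) (G : Subgroup (Iso n))
    (hfix : NoFix G) (μ : Measure (Sph n)) [IsFiniteMeasure μ] (h0 : μ ≠ 0) (hinv : InvMeas G μ)
    (h : (3 ≤ n ∧ ∃ Λ : ℝ≥0, μ ≤ Λ • (volume : Measure (Eu n)).toSphere) ∨
      (SubConc G p μ ∧ DecayUnif G p μ ∧ DecayInv G p μ)) :
    ∃ K : Set (Eu n), InvSet G K ∧ Solves p K μ :=
  main hp hpn G hfix μ h0 hinv h

end Pool.Agent.Results.MP_f7e2e5_gt.InvariantMeasures
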