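import Pool.Agent.Work.MP_f7e2e5_gt.GCor
import Pool.Agent.Work.MP_f7e2e5_gt.Cross

open MeasureTheory Set
open scoped RealInnerProductSpace Pointwise

namespace Pool.Agent.Results.MP_f7e2e5_gt.OrderComplex

open Pool.Agent.Work.MP_f7e2e5_gt

variable {n : ℕ} {ι : Type}

/-- The largest subspace contained in the cone generated by the atoms `u i`, `i ∈ I`. -/
noncomputable def flat (u : ι → Sph n) (I : Finset ι) : Submodule ℝ (Eu n) :=
  lin (fun i => (u i : Eu n)) I

/-- The quantity `(n - p) μ(I) - (dim flat I - p) |μ|`. -/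
noncomputable def excess [Fintype ι] (p : ℝ) (u : ι → Sph n) (c : ι → ℝ) (I : Finset ι) : ℝ :=
  (n - p) * ∑ i ∈ I, c i - (Module.finrank ℝ (flat u I) - p) * ∑ i, c i

/-- The permutation `σ` of the atoms is induced by the linear isometry `O`. -/
def Induces (u : ι → Sph n) (O : Eu n ≃ₗᵢ[ℝ] Eu n) (σ : Equiv.Perm ι) : Prop :=
  ∀ i, (u (σ i) : Eu n) = O (u i)

/-- The set `I` is invariant under `G`. -/
def Invariant (G : Subgroup (Equiv.Perm ι)) (I : Finset ι) : Prop := ∀ σ ∈ G, ∀ i ∈ I, σ i ∈ I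

/-- Finitely supported measures `μ = ∑ c i δ_(u i)` not concentrated on a closed hemisphere, with a
group `G` of symmetries (possibly trivial).  If the excess vanishes for no invariant proper
subspace of dimension `> p` positively spanned by its atoms, and the order complex of the nonempty
invariant sets of positive excess is not contractible, then `μ` is the logarithmic `p`-capacitary
measure of a `G`-invariant body. -/
theorem result {n : ℕ} {p : ℝ} (hp : 1 < p) (hpn : p < n) {ι : Type} [Fintype ι]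
    (u : ι → Sph n) (hu : Function.Injective u) (c : ι → ℝ) (hc : ∀ i, 0 < c i)
    (hh : ∀ v : Eu n, v ≠ 0 → ∃ i, 0 < ⟪v, (u i : Eu n)⟫)
    (G : Subgroup (Equiv.Perm ι)) (hG : ∀ σ ∈ G, (∀ i, c (σ i) = c i) ∧ ∃ O, Induces u O σ)
    (hnd : ∀ I, Invariant G I → I ≠ Finset.univ → (∀ i, i ∈ I ↔ (u i : Eu n) ∈ flat u I) →
      p < Module.finrank ℝ (flat u I) → excess p u c I ≠ 0)
    (hX : ¬ ContractibleSpace
      (orderComplex fun I : Finset ι => I.Nonempty ∧ Invariant G I ∧ 0 < excess p u c I)) :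
    ∃ K, Solves p K (∑ i, ENNReal.ofReal (c i) • Measure.dirac (u i)) ∧
      ∀ σ ∈ G, ∀ O, Induces u O σ → O '' K = K := by
  refine G_main' hp hpn hu hc hh G hG (fun I a b d e => sub_ne_zero.1 (hnd I a b d e)) ?_
  have e : ∀ I, (I.Nonempty ∧ Invariant G I ∧ 0 < excess p u c I) = _ := fun I =>
    congrArg (fun x => I.Nonempty ∧ Invariant G I ∧ x) (propext sub_pos)
  rwa [funext e] at hX

/-! Three special cases, obtained from `result` by exhibiting a sphere in the order complex
(file `GCor`).  They show that the hypotheses are satisfiable and are not separate hand-ins. -/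

open Classical in
/-- The support contains a basis and its negative and the coordinate subspaces of dimension `> p`
are heavy.  For `p ≥ n - 1` both mass conditions are vacuous. -/
theorem case_basis {n : ℕ} {p : ℝ} (hp : 1 < p) (hpn : p < n) {ι : Type} [Fintype ι]
    (u : ι → Sph n) (hu : Function.Injective u) (c : ι → ℝ) (hc : ∀ i, 0 < c i)
    (b : Module.Basis (Fin n) ℝ (Eu n))
    (hb : ∀ j, ∃ i, (u i : Eu n) = b j) (hb' : ∀ j, ∃ i, (u i : Eu n) = -b j)
    (hnd : ∀ I : Finset ι, I ≠ Finset.univ →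
      (∀ i, i ∈ I ↔ (u i : Eu n) ∈ flat u I) →
      p < Module.finrank ℝ (flat u I) →
      (n - p) * ∑ i ∈ I, c i ≠ (Module.finrank ℝ (flat u I) - p) * ∑ i, c i)
    (hS : ∀ S : Finset (Fin n), S ≠ Finset.univ → p < S.card → (S.card - p) * ∑ i, c i <
      (n - p) * ∑ i with (u i : Eu n) ∈ Submodule.span ℝ (b '' S), c i) :
    ∃ K, Solves p K (∑ i, ENNReal.ofReal (c i) • Measure.dirac (u i)) :=
  G_basis hp hpn hu hc b hb hb' hnd hS

open Classical in
/-- Even measures all of whose proper subspaces of dimension `> p` spanned by atoms are light. -/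
theorem case_even {n : ℕ} {p : ℝ} (hp : 1 < p) (hpn : p < n) {ι : Type} [Fintype ι]
    (u : ι → Sph n) (hu : Function.Injective u) (c : ι → ℝ) (hc : ∀ i, 0 < c i)
    (hev : ∀ i, ∃ j, u j = -u i ∧ c j = c i)
    (hsp : Submodule.span ℝ (range fun i => (u i : Eu n)) = ⊤)
    (hL : ∀ L : Submodule ℝ (Eu n), L ≠ ⊤ → p < Module.finrank ℝ L →
      L = Submodule.span ℝ ((fun i => (u i : Eu n)) '' {i | (u i : Eu n) ∈ L}) →
      (n - p) * ∑ i with (u i : Eu n) ∈ L, c i < (Module.finrank ℝ L - p) * ∑ i, c i) :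
    ∃ K : Set (Eu n), K = -K ∧ Solves p K (∑ i, ENNReal.ofReal (c i) • Measure.dirac (u i)) :=
  G_even hp hpn hu hc hev hsp hL

/-- Heavy sets lie in open hemispheres; vacuous mass condition for normals in general position. -/
theorem case_pointed {n : ℕ} {p : ℝ} (hp : 1 < p) (hpn : p < n) {ι : Type} [Fintype ι]
    (u : ι → Sph n) (hu : Function.Injective u) (c : ι → ℝ) (hc : ∀ i, 0 < c i)
    (hh : ∀ v : Eu n, v ≠ 0 → ∃ i, 0 < ⟪v, (u i : Eu n)⟫)
    (h : ∀ I : Finset ι, flat u I ≠ ⊥ → flat u I ≠ ⊤ →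
      (n - p) * ∑ i ∈ I, c i < (Module.finrank ℝ (flat u I) - p) * ∑ i, c i) :
    ∃ K, Solves p K (∑ i, ENNReal.ofReal (c i) • Measure.dirac (u i)) :=
  G_pointed hp hpn hu hc hh h

/-- On the coordinate directions the condition of `case_basis` is also necessary. -/
theorem case_cross {n : ℕ} {p : ℝ} (hp : 1 < p) (hpn : p < n) (μ : Measure (Sph n))
    [IsFiniteMeasure μ] (hμ : μ {ξ | ∀ i : Fin n, |(ξ : Eu n) i| ≠ 1} = 0) :
    (∃ K, Solves p K μ) ↔
      (∀ i : Fin n, μ {ξ | (ξ : Eu n) i = 1} ≠ 0 ∧ μ {ξ | (ξ : Eu n) i = -1} ≠ 0) ∧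
        ∀ S : Finset (Fin n), S.Nonempty →
          μ.real {ξ | ∃ i ∈ S, |(ξ : Eu n) i| = 1} < S.card / (n - p) * μ.real univ :=
  cross_iff hp hpn μ hμ

end Pool.Agent.Results.MP_f7e2e5_gt.OrderComplex
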