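import Pool.Agent.Work.MP_f7e2e5_gt.CMain

open MeasureTheory Set

namespace Pool.Agent.Results.MP_f7e2e5_gt.PlanarGap

open Pool.Agent.Work.MP_f7e2e5_gt

/-- The two opposite closed arcs `|ξ_1| ≤ η |ξ_2|` of the unit circle. -/
def arcs (η : ℝ) : Set (Sph 2) := {ξ | |(ξ : Eu 2) 0| ≤ η * |(ξ : Eu 2) 1|}

/-- Arc length on the unit circle. -/
noncomputable def arcLength : Measure (Sph 2) := (volume : Measure (Eu 2)).toSphere

/-- In the plane, a measure carried by two small opposite arcs, with density at least `N |μ|` on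
them, is not a logarithmic `p`-capacitary measure. -/
theorem result {p : ℝ} (hp : 1 < p) (hp2 : p < 2) :
    ∃ N : ℝ, 0 < N ∧ ∀ η : ℝ, 0 < η → η ≤ 1 / 2 → ∀ (μ : Measure (Sph 2)) [IsFiniteMeasure μ],
      μ (arcs η)ᶜ = 0 →
      ENNReal.ofReal (N * μ.real univ) • arcLength.restrict (arcs η) ≤ μ →
      ¬ ∃ K, Solves p K μ := by
  obtain ⟨N, hN, h⟩ := (planar_main hp hp2).1
  refine ⟨N, hN, fun η hη hη1 μ _ h0 hle => h η hη hη1 μ ?_ hle⟩
  have : {ξ : Sph 2 | η * |(ξ : Eu 2) 1| < |(ξ : Eu 2) 0|} = (arcs η)ᶜ := by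
    ext ξ
    simp [arcs]
  rw [this]
  exact h0

end Pool.Agent.Results.MP_f7e2e5_gt.PlanarGap
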