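import Pool.Agent.Work.MP_f7e2e5_gt.GPlane

open MeasureTheory Set
open scoped RealInnerProductSpace

namespace Pool.Agent.Results.MP_f7e2e5_gt.PlanarSupport

open Pool.Agent.Work.MP_f7e2e5_gt

/-- In the plane, every measure with the finite support `{u i}` is a logarithmic `p`-capacitary
measure if and only if the support lies in no closed half-circle and does not contain exactly one
pair of antipodal points. -/
theorem result {p : ℝ} (hp : 1 < p) (hp2 : p < 2) {ι : Type} [Fintype ι] (u : ι → Sph 2)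
    (hu : Function.Injective u) :
    (∀ c : ι → ℝ, (∀ i, 0 < c i) →
      ∃ K, Solves p K (∑ i, ENNReal.ofReal (c i) • Measure.dirac (u i))) ↔
    (∀ v : Eu 2, v ≠ 0 → ∃ i, 0 < ⟪v, (u i : Eu 2)⟫) ∧ {i | ∃ j, u j = -u i}.ncard ≠ 2 :=
  plane_iff hp hp2 hu

end Pool.Agent.Results.MP_f7e2e5_gt.PlanarSupport
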